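import Pool.Agent.T2H24.SU.Famil

/-!
# The Sato-Tate law over a field and the laws over its extensions: meromorphy at `s = 1`

The Sato-Tate group is `SU(2)`: the classes of the primes `v` of a number field `K` are angles
`θ_v ∈ [0, π]`.  Suppose that `θ` has the Sato-Tate law over `K` (for instance, `K` is totally real and `θ`
belongs to an elliptic curve over `K` without complex multiplication).  The theorem is about the laws over
the finite extensions `F` of `K`, of any degrees and with any Galois groups: `φ_w = θ_v` for the primes `w`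
of `F` of residue degree one over the prime `v` of `K`.  It assumes nothing except for meromorphic
continuations of the `L(Sym^n φ, s)`, `n ≥ 1`, to neighbourhoods of the single point `s = 1`, with unknown
orders.

* The law over `F` is `(2/π) sin²((k + 1) t) dt` with an integer `k ≥ 0` such that `(k + 1)² ≤ [F : K]`, and
  the pole of `L(Sym^n φ, s)` at `s = 1` has order one for `n = 2, 4, …, 2k`, order zero for the other `n`.
  So there is only the Sato-Tate law for `[F : K] ≤ 3`, and for all `F` the criterion is that the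
  single function `L(Sym^2 φ, s)` has no pole at `s = 1`.
* In a family of extensions such that all `F_i ⊗_K F_j`, `i ≠ j`, are fields, almost all members have
  the Sato-Tate law: if `F_i ⊗_K F_i` is the product of at most `R` fields for all `i` (for example, if
  `[F_i : K] ≤ R`), then there are at most `R - 2` exceptions.
-/

set_option autoImplicit false

namespace Pool.Agent.Results.MP_4c4ce6_nt.BaseChangeOnePoint

open NumberField IsDedekindDomain Filter Topology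
open scoped TensorProduct

section

variable {F : Type} [Field F] [NumberField F]

/-- The average of `φ` over the primes of `F` of norm at most `N`. -/
noncomputable def avg (φ : HeightOneSpectrum (𝓞 F) → ℂ) (N : ℕ) : ℂ :=
  (∑ᶠ w : {w : HeightOneSpectrum (𝓞 F) // Ideal.absNorm w.asIdeal ≤ N}, φ w.1) /
    (Nat.card {w : HeightOneSpectrum (𝓞 F) // Ideal.absNorm w.asIdeal ≤ N} : ℂ)

/-- The average of `φ` over the primes of `F` with the weights `q_v^{-(1 + ε)}`. -/
noncomputable def davg (φ : HeightOneSpectrum (𝓞 F) → ℝ) (ε : ℝ) : ℝ :=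
  (∑' v : HeightOneSpectrum (𝓞 F), φ v * (Ideal.absNorm v.asIdeal : ℝ) ^ (-(1 + ε))) /
    ∑' v : HeightOneSpectrum (𝓞 F), (Ideal.absNorm v.asIdeal : ℝ) ^ (-(1 + ε))

/-- The Sato-Tate law for the natural density: for all continuous `f` the averages of `f(θ_v)` over the
primes with `q_v ≤ N` tend to `(2/π) ∫ f(t) sin² t dt` for `N → ∞`. -/
def SatoTate (θ : HeightOneSpectrum (𝓞 F) → ℝ) : Prop :=
  ∀ f : ℝ → ℂ, Continuous f → Tendsto (avg fun v => f (θ v)) atTop
    (𝓝 (((2 / Real.pi : ℝ) : ℂ) * ∫ t in (0 : ℝ)..Real.pi, f t * ((Real.sin t ^ 2 : ℝ) : ℂ)))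

/-- `θ` has the law `L` for the Dirichlet density: for all continuous `f` the averages of `f(θ_v)` with
the weights `q_v^{-(1 + ε)}` tend to `L f` for `ε → 0`. -/
def HasLaw (θ : HeightOneSpectrum (𝓞 F) → ℝ) (L : (ℝ → ℝ) → ℝ) : Prop :=
  ∀ f : ℝ → ℝ, Continuous f → Tendsto (davg fun v => f (θ v)) (𝓝[>] 0) (𝓝 (L f))

/-- The Euler product `L(Sym^n, s)`. -/
noncomputable def LSym (θ : HeightOneSpectrum (𝓞 F) → ℝ) (n : ℕ) (s : ℂ) : ℂ :=
  ∏' v : HeightOneSpectrum (𝓞 F), ∏ j ∈ Finset.range (n + 1),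
    (1 - Complex.exp (((((n : ℝ) - 2 * (j : ℝ)) * θ v : ℝ) : ℂ) * Complex.I) *
      (Ideal.absNorm v.asIdeal : ℂ) ^ (-s))⁻¹

/-- `Λ` is a meromorphic continuation of `L(Sym^n, s)` to a neighbourhood of `1 + iτ`. -/
def IsContinuation (θ : HeightOneSpectrum (𝓞 F) → ℝ) (n : ℕ) (τ : ℝ) (Λ : ℂ → ℂ) : Prop :=
  MeromorphicAt Λ (1 + τ * Complex.I) ∧
    ∀ᶠ s in 𝓝 ((1 : ℂ) + τ * Complex.I), (1 : ℝ) < s.re → Λ s = LSym θ n s

/-- `L(Sym^n, s)` continues to a neighbourhood of `s = 1` and has no pole there. -/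
def NoPole (θ : HeightOneSpectrum (𝓞 F) → ℝ) (n : ℕ) : Prop :=
  ∃ Λ, IsContinuation θ n 0 Λ ∧ 0 ≤ meromorphicOrderAt Λ 1

/-- `φ w = θ v` for all but finitely many primes `w` of `F` of residue degree one over the prime `v` of
`K` below `w`. -/
def BaseChange {K : Type} [Field K] [NumberField K] [Algebra K F]
    (θ : HeightOneSpectrum (𝓞 K) → ℝ) (φ : HeightOneSpectrum (𝓞 F) → ℝ) : Prop :=
  ∃ S : Finset (HeightOneSpectrum (𝓞 F)), ∀ w, w ∉ S → ∀ v : HeightOneSpectrum (𝓞 K),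
    w.asIdeal.comap (algebraMap (𝓞 K) (𝓞 F)) = v.asIdeal →
    Ideal.absNorm w.asIdeal = Ideal.absNorm v.asIdeal → φ w = θ v

end

/-- The number of fields whose product is `F ⊗_K F'`. -/
noncomputable def numFields (K F F' : Type) [Field K] [Field F] [Field F'] [Algebra K F]
    [Algebra K F'] : ℕ := Nat.card (MaximalSpectrum (F ⊗[K] F'))

/-- The law `(2/π) sin²((k + 1) t) dt` on `[0, π]`; for `k = 0` this is the Sato-Tate law. -/
noncomputable def sinLaw (k : ℕ) (f : ℝ → ℝ) : ℝ :=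
  2 / Real.pi * ∫ t in (0 : ℝ)..Real.pi, f t * Real.sin (((k : ℝ) + 1) * t) ^ 2

section Bridge

open Pool.Agent.T2H24.SU Pool.Agent.TH553.ST Pool.Agent.TH553.RS Pool.Agent.W540.BE

variable {F : Type} [Field F] [NumberField F]

theorem avg_eq (g : HeightOneSpectrum (𝓞 F) → ℂ) : avg g = mn g := by
  funext N
  have hs : ∀ v, v ∈ upto F N ↔ Ideal.absNorm v.asIdeal ≤ N := fun v => mem_upto
  let e : {v : HeightOneSpectrum (𝓞 F) // Ideal.absNorm v.asIdeal ≤ N} ≃ (upto F N) :=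
    Equiv.subtypeEquivRight fun v => (hs v).symm
  have hfin : Finite {v : HeightOneSpectrum (𝓞 F) // Ideal.absNorm v.asIdeal ≤ N} :=
    Finite.of_equiv _ e.symm
  unfold avg mn
  have h1 : (∑ᶠ v : {v : HeightOneSpectrum (𝓞 F) // Ideal.absNorm v.asIdeal ≤ N}, g v.1) =
      ∑ v ∈ upto F N, g v := by
    rw [← Finset.sum_coe_sort, ← finsum_eq_sum_of_fintype, ← finsum_comp_equiv e]
    rfl
  have h2 : Nat.card {v : HeightOneSpectrum (𝓞 F) // Ideal.absNorm v.asIdeal ≤ N} =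
      (upto F N).card := by
    rw [Nat.card_congr e, Nat.card_eq_fintype_card, Fintype.card_coe]
  rw [h1, h2, Complex.real_smul, div_eq_inv_mul]
  push_cast
  rfl

theorem davg_eq (g : HeightOneSpectrum (𝓞 F) → ℝ) (ε : ℝ) :
    davg g ε = EP (nm F) ε g / EP (nm F) ε fun _ => 1 := by
  unfold davg EP
  simp only [one_mul]
  rfl

theorem davg_iff (g : HeightOneSpectrum (𝓞 F) → ℝ) (c : ℝ) :
    Tendsto (davg g) (𝓝[>] 0) (𝓝 c) ↔ Tendsto (qt (nm F) g) (𝓝[>] 0) (𝓝 c) := by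
  have h1 := (sysF F).one
  have h2 : ∀ᶠ ε : ℝ in 𝓝[>] 0, (0 : ℝ) < qt (nm F) (fun _ => 1) ε :=
    h1.eventually_const_lt zero_lt_one
  constructor
  · intro h
    have h3 := h.mul h1
    rw [mul_one] at h3
    refine h3.congr' ?_
    filter_upwards [h2] with ε h4
    rw [davg_eq]
    unfold qt at *
    have h5 : EP (nm F) ε (fun _ => 1) ≠ 0 := by
      intro h6
      rw [h6, zero_div] at h4
      exact lt_irrefl _ h4
    field_simp
  · intro h
    have h3 := h.div h1 one_ne_zero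
    rw [div_one] at h3
    refine h3.congr' ?_
    filter_upwards [h2, Pool.Agent.H341R2.lam_tendsto.eventually_gt_atTop 0] with ε h4 h7
    rw [davg_eq]
    unfold qt at *
    have h5 : EP (nm F) ε (fun _ => 1) ≠ 0 := by
      intro h6
      rw [h6, zero_div] at h4
      exact lt_irrefl _ h4
    simp only [Pi.div_apply]
    field_simp

theorem hasLaw_iff (θ : HeightOneSpectrum (𝓞 F) → ℝ) (L : (ℝ → ℝ) → ℝ) :
    HasLaw θ L ↔ UL θ L :=
  ⟨fun h f hf => (davg_iff _ _).1 (h f hf), fun h f hf => (davg_iff _ _).2 (h f hf)⟩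

theorem LSym_eq (θ : HeightOneSpectrum (𝓞 F) → ℝ) (n : ℕ) (s : ℂ) : LSym θ n s = LS θ n s := by
  unfold LSym LS
  refine tprod_congr fun v => ?_
  rw [← Finset.prod_inv_distrib, Finset.prod_range]
  rfl

theorem con_iff (θ : HeightOneSpectrum (𝓞 F) → ℝ) (n : ℕ) (τ : ℝ) (Λ : ℂ → ℂ) :
    IsContinuation θ n τ Λ ↔ Pool.Agent.T2H24.SU.Con θ n τ Λ := by
  unfold IsContinuation Pool.Agent.T2H24.SU.Con
  simp only [LSym_eq]

theorem point_one : (1 : ℂ) + ((0 : ℝ) : ℂ) * Complex.I = 1 := by simp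

theorem nopole_iff (θ : HeightOneSpectrum (𝓞 F) → ℝ) (n : ℕ) : NoPole θ n ↔
    ∃ Λ, Pool.Agent.T2H24.SU.Con θ n 0 Λ ∧ 0 ≤ meromorphicOrderAt Λ (1 + (0 : ℝ) * Complex.I) := by
  unfold NoPole
  simp only [con_iff, point_one]

theorem st_of_tendsto {θ : HeightOneSpectrum (𝓞 F) → ℝ} (hθ : ∀ v, θ v ∈ Set.Icc 0 Real.pi)
    (h : ∀ n : ℕ, 1 ≤ n → Tendsto (qt (nm F) fun v => us n (θ v)) (𝓝[>] 0) (𝓝 0)) :
    HasLaw θ (sinLaw 0) ∧ ((∀ n : ℕ, 1 ≤ n → ∀ τ : ℝ, ∃ Λ, IsContinuation θ n τ Λ) →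
      SatoTate θ) := by
  constructor
  · rw [hasLaw_iff]
    intro f hf
    have h1 := ul_zero hθ h f hf
    unfold sinLaw
    simpa using h1
  · intro hc f hf
    rw [avg_eq]
    exact nat_of_con hθ h (fun n hn τ => by
      obtain ⟨Λ, hΛ⟩ := hc n hn τ
      exact ⟨Λ, (con_iff _ _ _ _).1 hΛ⟩) hf

theorem tendsto_of_st {θ : HeightOneSpectrum (𝓞 F) → ℝ} (h : HasLaw θ (sinLaw 0)) (n : ℕ)
    (hn : 1 ≤ n) : Tendsto (qt (nm F) fun v => us n (θ v)) (𝓝[>] 0) (𝓝 0) := by
  have h1 := (hasLaw_iff θ _).1 h (us n) (cont_us n)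
  have h2 : sinLaw 0 (us n) = 0 := by
    have h3 := stI_us n
    rw [if_neg (by omega)] at h3
    unfold stI at h3
    have h4 : (fun t : ℝ => ((us n t : ℝ) : ℂ) * ((Real.sin t ^ 2 : ℝ) : ℂ)) =
        fun t => ((us n t * Real.sin t ^ 2 : ℝ) : ℂ) := by
      funext t
      push_cast
      rfl
    rw [h4, intervalIntegral.integral_ofReal, ← Complex.ofReal_mul] at h3
    unfold sinLaw
    simp only [Nat.cast_zero, zero_add, one_mul]
    exact_mod_cast h3
  rw [h2] at h1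
  exact h1

end Bridge

/-- **The laws over the extensions.**  Let `K` be a number field, let `θ` have the Sato-Tate law over `K`
(for the Dirichlet density), let `F_i` be finitely many finite extensions of `K`, let `φ_i` be a base change
of `θ` to `F_i`, and suppose that all `L(Sym^n φ_i, s)`, `n ≥ 1`, have meromorphic continuations to
neighbourhoods of `s = 1`.  Then there are integers `k_i ≥ 0` such that

* `(k_i + 1)² ≤ [F_i : K]`, the law of `φ_i` for the Dirichlet density is `(2/π) sin²((k_i + 1) t) dt`, and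
  `L(Sym^n φ_i, s)` has a pole of order one at `s = 1` for `n = 2, 4, …, 2 k_i` and neither a pole nor a zero
  for all other `n ≥ 1`;
* `k_i = 0`, which is the Sato-Tate law, if `[F_i : K] ≤ 3` or if `L(Sym^2 φ_i, s)` has no pole at `s = 1`;
* if `k_i = 0` and if there are meromorphic continuations to neighbourhoods of all points of `Re s = 1`,
  then `φ_i` has the Sato-Tate law for the natural density;
* if all `F_i ⊗_K F_j`, `i ≠ j`, are fields, then `∑ 1 / (numFields (F_i, F_i) - 1) < 1` for the sum over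
  the exceptional `i`, those with `k_i ≠ 0`. -/
theorem result (K : Type) [Field K] [NumberField K] (θ : HeightOneSpectrum (𝓞 K) → ℝ)
    (hθ : ∀ v, θ v ∈ Set.Icc 0 Real.pi) (hlaw : HasLaw θ (sinLaw 0))
    (ι : Type) [Fintype ι] (F : ι → Type) [∀ i, Field (F i)] [∀ i, NumberField (F i)]
    [∀ i, Algebra K (F i)] (φ : ∀ i, HeightOneSpectrum (𝓞 (F i)) → ℝ)
    (hφ : ∀ i w, φ i w ∈ Set.Icc 0 Real.pi) (hb : ∀ i, BaseChange θ (φ i))
    (hc : ∀ (i : ι) (n : ℕ), 1 ≤ n → ∃ Λ, IsContinuation (φ i) n 0 Λ) :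
    ∃ k : ι → ℕ,
      (∀ i, (k i + 1) ^ 2 ≤ Module.finrank K (F i) ∧ HasLaw (φ i) (sinLaw (k i)) ∧
        ∀ (n : ℕ) (Λ : ℂ → ℂ), 1 ≤ n → IsContinuation (φ i) n 0 Λ → meromorphicOrderAt Λ 1 =
          ((if Even n ∧ n ≤ 2 * k i then -1 else 0 : ℤ) : WithTop ℤ)) ∧
      (∀ i, Module.finrank K (F i) ≤ 3 ∨ NoPole (φ i) 2 → k i = 0) ∧
      (∀ i, k i = 0 → (∀ n : ℕ, 1 ≤ n → ∀ τ : ℝ, ∃ Λ, IsContinuation (φ i) n τ Λ) →
        SatoTate (φ i)) ∧
      ((∀ i j, i ≠ j → numFields K (F i) (F j) = 1) →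
        ∑ i with k i ≠ 0, 1 / ((numFields K (F i) (F i) : ℝ) - 1) < 1) := by
  classical
  have main : ∀ i, ∃ k : ℕ, (k + 1) ^ 2 ≤ Module.finrank K (F i) ∧
      Pool.Agent.T2H24.SU.UL (φ i) (Pool.Agent.T2H24.SU.cosI (2 * (k + 1)) (-1)) ∧
      (∀ n : ℕ, 1 ≤ n → Tendsto (Pool.Agent.TH553.RS.qt (Pool.Agent.W540.BE.nm (F i))
        fun v => Pool.Agent.T2H24.SU.us n (φ i v)) (𝓝[>] 0)
        (𝓝 (Pool.Agent.T2H24.SU.stp k n : ℝ))) ∧
      ∀ (n : ℕ) (Λ : ℂ → ℂ), 1 ≤ n → Pool.Agent.T2H24.SU.Con (φ i) n 0 Λ →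
        meromorphicOrderAt Λ (1 + (0 : ℝ) * Complex.I) =
          ((-(Pool.Agent.T2H24.SU.stp k n) : ℤ) : WithTop ℤ) := fun i =>
    Pool.Agent.T2H24.SU.main_bc (hφ i) (tendsto_of_st hlaw) (hb i) fun n hn => by
      obtain ⟨Λ, hΛ⟩ := hc i n hn
      exact ⟨Λ, (con_iff _ _ _ _).1 hΛ⟩
  choose k hk hl hmean hord using main
  have hord' : ∀ (i : ι) (n : ℕ) (Λ : ℂ → ℂ), 1 ≤ n → IsContinuation (φ i) n 0 Λ →
      meromorphicOrderAt Λ 1 =
        ((if Even n ∧ n ≤ 2 * k i then -1 else 0 : ℤ) : WithTop ℤ) := by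
    intro i n Λ hn hΛ
    have h1 := hord i n Λ hn ((con_iff _ _ _ _).1 hΛ)
    rw [point_one] at h1
    rw [h1]
    congr 1
    unfold Pool.Agent.T2H24.SU.stp
    split_ifs <;> rfl
  refine ⟨k, fun i => ⟨hk i, ?_, hord' i⟩, fun i h => ?_, fun i hk0 => ?_, fun hind => ?_⟩
  · rw [hasLaw_iff]
    intro f hf
    have h1 := hl i f hf
    rw [Pool.Agent.T2H24.SU.cosI_two] at h1
    exact h1
  · rcases h with h | ⟨Λ, hΛ, hΛ2⟩
    · by_contra hne
      have h1 : 2 ≤ k i + 1 := by omega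
      have h2 : 2 ^ 2 ≤ (k i + 1) ^ 2 := Nat.pow_le_pow_left h1 2
      have h3 := hk i
      omega
    · by_contra hne
      rw [hord' i 2 Λ (by norm_num) hΛ, if_pos ⟨by decide, by omega⟩] at hΛ2
      have h3 : (0 : ℤ) ≤ -1 := by exact_mod_cast hΛ2
      omega
  · refine (st_of_tendsto (hφ i) fun n hn => ?_).2
    have h1 := hmean i n hn
    have h2 : Pool.Agent.T2H24.SU.stp (k i) n = 0 := by
      unfold Pool.Agent.T2H24.SU.stp
      rw [if_neg]
      rintro ⟨_, h3⟩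
      omega
    rw [h2] at h1
    simpa using h1
  · have h := Pool.Agent.T2H24.SU.few_exceptional (K := K) (ι := {i : ι // k i ≠ 0})
      (F := fun i => F i.1) hθ (tendsto_of_st hlaw) (φ := fun i => φ i.1) (fun i => hb i.1)
      (fun i j hij => hind i.1 j.1 fun h => hij (Subtype.ext h))
      (fun i => by
        have h1 := hmean i.1 2 (by norm_num)
        have h2 : Pool.Agent.T2H24.SU.stp (k i.1) 2 = 1 := by
          unfold Pool.Agent.T2H24.SU.stp
          rw [if_pos]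
          have := i.2
          exact ⟨by decide, by omega⟩
        rw [h2] at h1
        simpa using h1)
    rw [Finset.sum_subtype (p := fun i => k i ≠ 0) (Finset.univ.filter fun i => k i ≠ 0)
      (by simp)]
    exact h

end Pool.Agent.Results.MP_4c4ce6_nt.BaseChangeOnePoint
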