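import Pool.Agent.T2H24.SU.Mass

/-!
# Meromorphy at the single point `s = 1` and the laws of the Frobenius angles

The Sato-Tate group is `SU(2)`: the classes of the primes `v` of a number field `F` are angles
`θ_v ∈ [0, π]`, and the `L`-functions of the irreducible representations are the
`L(Sym^n, s) = ∏_v ∏_j (1 - e^{i (n - 2 j) θ_v} q_v^{-s})⁻¹`.  (At the finitely many exceptional primes
one may take any angle.)  The criterion of Serre derives the Sato-Tate law from the continuation of all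
`L(Sym^n, s)`, `n ≥ 1`, to `Re s ≥ 1` without zeros and poles.  The theorem is about the case that
nothing is known except for meromorphic continuations to a neighbourhood of the single point `s = 1`,
with unknown orders (and, in the end, of all points of `Re s = 1`, with unknown orders).

* The angles then have a limit law (for the Dirichlet density), and it belongs to a list of three
  families: the laws on the `k`-th roots of unity, the half uniform laws (like the law of a form with complex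
  multiplication) and the laws with one cosine (like the Sato-Tate law and the uniform law).
* If the law is not of the first kind, then it is the Sato-Tate law as soon as two of the `L`-functions,
  `L(Sym^2, s)` and `L(Sym^4, s)`, have no pole at `s = 1`.
-/

set_option autoImplicit false

namespace Pool.Agent.Results.MP_4c4ce6_nt.OnePoint

open NumberField IsDedekindDomain Filter Topology

section

variable {F : Type} [Field F] [NumberField F]

/-- The average of `φ` over the primes of `F` of norm at most `N`. -/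
noncomputable def avg (φ : HeightOneSpectrum (𝓞 F) → ℂ) (N : ℕ) : ℂ :=
  (∑ᶠ w : {w : HeightOneSpectrum (𝓞 F) // Ideal.absNorm w.asIdeal ≤ N}, φ w.1) /
    (Nat.card {w : HeightOneSpectrum (𝓞 F) // Ideal.absNorm w.asIdeal ≤ N} : ℂ)

/-- The average of `φ` over the primes of `F` with the weights `q_v^{-(1 + ε)}`. -/
noncomputable def davg (φ : HeightOneSpectrum (𝓞 F) → ℝ) (ε : ℝ) : ℝ :=
  (∑' v : HeightOneSpectrum (𝓞 F), φ v * (Ideal.absNorm v.asIdeal : ℝ) ^ (-(1 + ε))) /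
    ∑' v : HeightOneSpectrum (𝓞 F), (Ideal.absNorm v.asIdeal : ℝ) ^ (-(1 + ε))

/-- The Sato-Tate law for the natural density: for all continuous `f` the averages of `f(θ_v)` over the
primes with `q_v ≤ N` tend to `(2/π) ∫ f(t) sin² t dt` for `N → ∞`. -/
def SatoTate (θ : HeightOneSpectrum (𝓞 F) → ℝ) : Prop :=
  ∀ f : ℝ → ℂ, Continuous f → Tendsto (avg fun v => f (θ v)) atTop
    (𝓝 (((2 / Real.pi : ℝ) : ℂ) * ∫ t in (0 : ℝ)..Real.pi, f t * ((Real.sin t ^ 2 : ℝ) : ℂ)))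

/-- `θ` has the law `L` for the Dirichlet density: for all continuous `f` the averages of `f(θ_v)` with
the weights `q_v^{-(1 + ε)}` tend to `L f` for `ε → 0`. -/
def HasLaw (θ : HeightOneSpectrum (𝓞 F) → ℝ) (L : (ℝ → ℝ) → ℝ) : Prop :=
  ∀ f : ℝ → ℝ, Continuous f → Tendsto (davg fun v => f (θ v)) (𝓝[>] 0) (𝓝 (L f))

/-- The Euler product `L(Sym^n, s)`. -/
noncomputable def LSym (θ : HeightOneSpectrum (𝓞 F) → ℝ) (n : ℕ) (s : ℂ) : ℂ :=
  ∏' v : HeightOneSpectrum (𝓞 F), ∏ j ∈ Finset.range (n + 1),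
    (1 - Complex.exp (((((n : ℝ) - 2 * (j : ℝ)) * θ v : ℝ) : ℂ) * Complex.I) *
      (Ideal.absNorm v.asIdeal : ℂ) ^ (-s))⁻¹

/-- `Λ` is a meromorphic continuation of `L(Sym^n, s)` to a neighbourhood of `1 + iτ`. -/
def IsContinuation (θ : HeightOneSpectrum (𝓞 F) → ℝ) (n : ℕ) (τ : ℝ) (Λ : ℂ → ℂ) : Prop :=
  MeromorphicAt Λ (1 + τ * Complex.I) ∧
    ∀ᶠ s in 𝓝 ((1 : ℂ) + τ * Complex.I), (1 : ℝ) < s.re → Λ s = LSym θ n s

/-- `L(Sym^n, s)` continues to a neighbourhood of `s = 1` and has no pole there. -/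
def NoPole (θ : HeightOneSpectrum (𝓞 F) → ℝ) (n : ℕ) : Prop :=
  ∃ Λ, IsContinuation θ n 0 Λ ∧ 0 ≤ meromorphicOrderAt Λ 1

end

/-- The Sato-Tate law `(2/π) sin² t dt` on `[0, π]`. -/
noncomputable def stLaw (f : ℝ → ℝ) : ℝ :=
  2 / Real.pi * ∫ t in (0 : ℝ)..Real.pi, f t * Real.sin t ^ 2

/-- The law `(1/π) (1 + ε cos (N t)) dt` on `[0, π]`. -/
noncomputable def cosLaw (N : ℕ) (ε : ℤ) (f : ℝ → ℝ) : ℝ :=
  (1 / Real.pi) * ∫ t in (0 : ℝ)..Real.pi, f t * (1 + ε * Real.cos ((N : ℝ) * t))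

/-- The law with mass `1/2` for the uniform law on `[0, π]` and mass `1/2` for the uniform law on the
solutions `x` of `e^{i p x} = e^{i α}` on the circle; the point `x` of the circle gives the angle
`arccos (cos x)`. -/
noncomputable def halfLaw (p : ℕ) (α : ℝ) (f : ℝ → ℝ) : ℝ :=
  (1 / 2) * ((1 / Real.pi) * ∫ t in (0 : ℝ)..Real.pi, f t) +
    (1 / 2) * ((∑ i ∈ Finset.range p, f (Real.arccos (Real.cos ((2 * Real.pi * i + α) / p)))) / p)

/-- The law with the masses `c_0, …, c_{k-1}` at the angles of the `k`-th roots of unity; the point `x` of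
the circle gives the angle `arccos (cos x)`. -/
noncomputable def rootLaw (k : ℕ) (c : ℕ → ℝ) (f : ℝ → ℝ) : ℝ :=
  ∑ j ∈ Finset.range k, c j * f (Real.arccos (Real.cos (2 * Real.pi * j / k)))

/-- `θ` has a law on the `k`-th roots of unity for some `k ≥ 1`. -/
def HasRootLaw {F : Type} [Field F] [NumberField F] (θ : HeightOneSpectrum (𝓞 F) → ℝ) : Prop :=
  ∃ (k : ℕ) (c : ℕ → ℝ), 1 ≤ k ∧ (∀ j, 0 ≤ c j) ∧ ∑ j ∈ Finset.range k, c j = 1 ∧
    HasLaw θ (rootLaw k c)

section Bridge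

open Pool.Agent.T2H24.SU Pool.Agent.TH553.ST Pool.Agent.TH553.RS Pool.Agent.W540.BE

variable {F : Type} [Field F] [NumberField F]

theorem avg_eq (g : HeightOneSpectrum (𝓞 F) → ℂ) : avg g = mn g := by
  funext N
  have hs : ∀ v, v ∈ upto F N ↔ Ideal.absNorm v.asIdeal ≤ N := fun v => mem_upto
  let e : {v : HeightOneSpectrum (𝓞 F) // Ideal.absNorm v.asIdeal ≤ N} ≃ (upto F N) :=
    Equiv.subtypeEquivRight fun v => (hs v).symm
  have hfin : Finite {v : HeightOneSpectrum (𝓞 F) // Ideal.absNorm v.asIdeal ≤ N} :=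
    Finite.of_equiv _ e.symm
  unfold avg mn
  have h1 : (∑ᶠ v : {v : HeightOneSpectrum (𝓞 F) // Ideal.absNorm v.asIdeal ≤ N}, g v.1) =
      ∑ v ∈ upto F N, g v := by
    rw [← Finset.sum_coe_sort, ← finsum_eq_sum_of_fintype, ← finsum_comp_equiv e]
    rfl
  have h2 : Nat.card {v : HeightOneSpectrum (𝓞 F) // Ideal.absNorm v.asIdeal ≤ N} =
      (upto F N).card := by
    rw [Nat.card_congr e, Nat.card_eq_fintype_card, Fintype.card_coe]
  rw [h1, h2, Complex.real_smul, div_eq_inv_mul]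
  push_cast
  rfl

theorem davg_eq (g : HeightOneSpectrum (𝓞 F) → ℝ) (ε : ℝ) :
    davg g ε = EP (nm F) ε g / EP (nm F) ε fun _ => 1 := by
  unfold davg EP
  simp only [one_mul]
  rfl

theorem davg_iff (g : HeightOneSpectrum (𝓞 F) → ℝ) (c : ℝ) :
    Tendsto (davg g) (𝓝[>] 0) (𝓝 c) ↔ Tendsto (qt (nm F) g) (𝓝[>] 0) (𝓝 c) := by
  have h1 := (sysF F).one
  have h2 : ∀ᶠ ε : ℝ in 𝓝[>] 0, (0 : ℝ) < qt (nm F) (fun _ => 1) ε :=
    h1.eventually_const_lt zero_lt_one
  constructor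
  · intro h
    have h3 := h.mul h1
    rw [mul_one] at h3
    refine h3.congr' ?_
    filter_upwards [h2] with ε h4
    rw [davg_eq]
    unfold qt at *
    have h5 : EP (nm F) ε (fun _ => 1) ≠ 0 := by
      intro h6
      rw [h6, zero_div] at h4
      exact lt_irrefl _ h4
    field_simp
  · intro h
    have h3 := h.div h1 one_ne_zero
    rw [div_one] at h3
    refine h3.congr' ?_
    filter_upwards [h2, Pool.Agent.H341R2.lam_tendsto.eventually_gt_atTop 0] with ε h4 h7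
    rw [davg_eq]
    unfold qt at *
    have h5 : EP (nm F) ε (fun _ => 1) ≠ 0 := by
      intro h6
      rw [h6, zero_div] at h4
      exact lt_irrefl _ h4
    simp only [Pi.div_apply]
    field_simp

theorem hasLaw_iff (θ : HeightOneSpectrum (𝓞 F) → ℝ) (L : (ℝ → ℝ) → ℝ) :
    HasLaw θ L ↔ UL θ L :=
  ⟨fun h f hf => (davg_iff _ _).1 (h f hf), fun h f hf => (davg_iff _ _).2 (h f hf)⟩

theorem LSym_eq (θ : HeightOneSpectrum (𝓞 F) → ℝ) (n : ℕ) (s : ℂ) : LSym θ n s = LS θ n s := by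
  unfold LSym LS
  refine tprod_congr fun v => ?_
  rw [← Finset.prod_inv_distrib, Finset.prod_range]
  rfl

theorem con_iff (θ : HeightOneSpectrum (𝓞 F) → ℝ) (n : ℕ) (τ : ℝ) (Λ : ℂ → ℂ) :
    IsContinuation θ n τ Λ ↔ Pool.Agent.T2H24.SU.Con θ n τ Λ := by
  unfold IsContinuation Pool.Agent.T2H24.SU.Con
  simp only [LSym_eq]

theorem point_one : (1 : ℂ) + ((0 : ℝ) : ℂ) * Complex.I = 1 := by simp

theorem nopole_iff (θ : HeightOneSpectrum (𝓞 F) → ℝ) (n : ℕ) : NoPole θ n ↔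
    ∃ Λ, Pool.Agent.T2H24.SU.Con θ n 0 Λ ∧ 0 ≤ meromorphicOrderAt Λ (1 + (0 : ℝ) * Complex.I) := by
  unfold NoPole
  simp only [con_iff, point_one]

theorem st_of_tendsto {θ : HeightOneSpectrum (𝓞 F) → ℝ} (hθ : ∀ v, θ v ∈ Set.Icc 0 Real.pi)
    (h : ∀ n : ℕ, 1 ≤ n → Tendsto (qt (nm F) fun v => us n (θ v)) (𝓝[>] 0) (𝓝 0)) :
    HasLaw θ stLaw ∧ ((∀ n : ℕ, 1 ≤ n → ∀ τ : ℝ, ∃ Λ, IsContinuation θ n τ Λ) →
      SatoTate θ) := by
  constructor
  · rw [hasLaw_iff]
    exact ul_zero hθ h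
  · intro hc f hf
    rw [avg_eq]
    exact nat_of_con hθ h (fun n hn τ => by
      obtain ⟨Λ, hΛ⟩ := hc n hn τ
      exact ⟨Λ, (con_iff _ _ _ _).1 hΛ⟩) hf

end Bridge

/-- **Meromorphy at one point.**  Let `F` be a number field and `θ_v ∈ [0, π]` for the primes `v` of `F`,
and suppose that all `L(Sym^n, s)`, `n ≥ 1`, have meromorphic continuations to neighbourhoods of `s = 1`.

I. `θ` has a law for the Dirichlet density, and the law is a probability law on the `k`-th roots of unity for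
some `k ≥ 1`, or `halfLaw p α` with `p ≥ 1` and `α ∈ {0, π}`, or `cosLaw N ε` with `N ≥ 1` and
`ε ∈ {0, 1, -1}`.

II. If the law is not a law on the `k`-th roots of unity for some `k ≥ 1`, and if `L(Sym^2, s)` and
`L(Sym^4, s)` have no pole at `s = 1`, then it is the Sato-Tate law; and then all averages over the primes
with `q_v ≤ N` tend to the Sato-Tate averages (natural density) if there are meromorphic continuations to
neighbourhoods of all points of `Re s = 1`. -/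
theorem result (F : Type) [Field F] [NumberField F] (θ : HeightOneSpectrum (𝓞 F) → ℝ)
    (hθ : ∀ v, θ v ∈ Set.Icc 0 Real.pi)
    (hc : ∀ n : ℕ, 1 ≤ n → ∃ Λ, IsContinuation θ n 0 Λ) :
    (HasRootLaw θ ∨
      (∃ (p : ℕ) (α : ℝ), 1 ≤ p ∧ (α = 0 ∨ α = Real.pi) ∧ HasLaw θ (halfLaw p α)) ∨
      ∃ (N : ℕ) (ε : ℤ), 1 ≤ N ∧ (ε = 0 ∨ ε = 1 ∨ ε = -1) ∧ HasLaw θ (cosLaw N ε)) ∧
    (¬ HasRootLaw θ → NoPole θ 2 → NoPole θ 4 →
      HasLaw θ stLaw ∧ ((∀ n : ℕ, 1 ≤ n → ∀ τ : ℝ, ∃ Λ, IsContinuation θ n τ Λ) →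
        SatoTate θ)) := by
  have hc' : ∀ n : ℕ, 1 ≤ n → ∃ Λ, Pool.Agent.T2H24.SU.Con θ n 0 Λ := fun n hn => by
    obtain ⟨Λ, hΛ⟩ := hc n hn
    exact ⟨Λ, (con_iff _ _ _ _).1 hΛ⟩
  refine ⟨?_, fun hr h2 h4 => ?_⟩
  · rcases Pool.Agent.T2H24.SU.main_tri' hθ hc' with ⟨k, c, hk, h0, h1, h⟩ |
        ⟨p, α, hp, hα, h⟩ | ⟨N, ε, hN, hε, h⟩
    · exact Or.inl ⟨k, c, hk, h0, h1, (hasLaw_iff _ _).2 h⟩
    · exact Or.inr (Or.inl ⟨p, α, hp, hα, (hasLaw_iff _ _).2 h⟩)
    · exact Or.inr (Or.inr ⟨N, ε, hN, hε, (hasLaw_iff _ _).2 h⟩)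
  · exact st_of_tendsto hθ (Pool.Agent.T2H24.SU.main_two' hθ hc' ((nopole_iff _ _).1 h2)
      ((nopole_iff _ _).1 h4) fun k c hk h0 h1 h => hr ⟨k, c, hk, h0, h1, (hasLaw_iff _ _).2 h⟩)

end Pool.Agent.Results.MP_4c4ce6_nt.OnePoint
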